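import Mathlib

/-!
# Permutation Wordle: cyclic shift maximises the cubic coefficient (MP_433145_co)

A strategy is a family `S k` of permutations of `Fin k`.  After a guess `γ` for the secret `π`, with
`I` the set of incorrect positions, the entry at the `j`-th element of `I` moves to the `S k j`-th
element of `I`, where `k = |I|`.

Proof.  Write `ρ I` for the permutation which acts on `I` as `S |I|` in increasing order.  A secret
found in exactly three guesses is `(ρ I)⁻¹ (ρ J)⁻¹` where `I ⊇ J` are the sets of incorrect
positions after the first and the second guess, and a pair `J ⊆ I` with `|J| ≥ 2` occurs if and only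
if no `i ∈ J` has `ρ J (ρ I i) = i`.  For the cyclic shift at most `|I|` sets `J ⊆ I` are excluded
(the pairs `{i, ρ I i}`), and only one for `|I| = 2`.  For every deranged strategy the pairs
`{i, ρ I i}` are excluded too.  There may be fewer of them, as `ρ I` may have cycles of length two;
but if `{i, j}` is such a cycle and `c` is another element of `I`, then `{i, j, c}` is excluded,
because `S 3` is a 3-cycle.
-/

set_option autoImplicit false

namespace Pool.Agent.Results.MP_433145_co.CubicMaximal

open Finset Equiv

/-- A strategy: a permutation `S k` of `{0, …, k-1}` for each `k`. -/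
abbrev Strategy := (k : ℕ) → Perm (Fin k)

/-- The permutation of the positions which maps the `j`-th element of `I` to the `S |I| j`-th element
of `I` and fixes the positions outside `I`. -/
def move (S : Strategy) {n : ℕ} (I : Finset (Fin n)) : Perm (Fin n) :=
  (S I.card).extendDomain (I.orderIsoOfFin rfl).toEquiv

/-- The set of incorrect positions of the guess `γ` for the secret `π`. -/
def incorrect {n : ℕ} (π γ : Perm (Fin n)) : Finset (Fin n) :=
  univ.filter fun i => γ i ≠ π i

/-- The guesses for the secret `π`: `guess S π r` is the guess number `r + 1`. The first guess is the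
identity; the entry of a guess at position `i` is at position `move S I i` in the next guess, where
`I` is the set of incorrect positions. -/
def guess (S : Strategy) {n : ℕ} (π : Perm (Fin n)) : ℕ → Perm (Fin n)
  | 0 => 1
  | r + 1 => guess S π r * (move S (incorrect π (guess S π r)))⁻¹

/-- The number of secrets for which the game using `S` ends after exactly `r + 1` guesses, that is,
the coefficient of `x ^ (r + 1)` in `f_S`. -/
def found (S : Strategy) (n r : ℕ) : ℕ :=
  (univ.filter fun π : Perm (Fin n) => guess S π r = π ∧ ∀ j < r, guess S π j ≠ π).card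

/-- `S 2, …, S n` have no fixed points. -/
def Deranged (S : Strategy) (n : ℕ) : Prop := ∀ k, 2 ≤ k → k ≤ n → ∀ i, S k i ≠ i

/-- The cyclic shift strategy `j ↦ j + 1`. -/
def CS : Strategy := fun k => finRotate k

section aux
variable {n : ℕ} (S : Strategy)

lemma move_not_mem {I : Finset (Fin n)} {x : Fin n} (hx : x ∉ I) : move S I x = x :=
  Perm.extendDomain_apply_not_subtype _ _ hx

lemma move_mem {I : Finset (Fin n)} {x : Fin n} (hx : x ∈ I) : move S I x ∈ I := by
  by_contra h
  have h1 := move_not_mem S h
  have := (move S I).injective h1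
  rw [this] at h
  exact h hx

lemma move_apply {I : Finset (Fin n)} (j : Fin I.card) :
    move S I ((I.orderIsoOfFin rfl j : I) : Fin n) = (I.orderIsoOfFin rfl (S I.card j) : I) := by
  unfold move
  exact Perm.extendDomain_apply_image _ _ j

lemma move_ne (hS : Deranged S n) {I : Finset (Fin n)} (h2 : 2 ≤ I.card) {x : Fin n} (hx : x ∈ I) :
    move S I x ≠ x := by
  obtain ⟨j, hj⟩ := (I.orderIsoOfFin rfl).surjective ⟨x, hx⟩
  have h1 : ((I.orderIsoOfFin rfl j : I) : Fin n) = x := by rw [hj]
  rw [← h1, move_apply]
  intro h
  have h3 := (I.orderIsoOfFin rfl).injective (Subtype.ext h)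
  exact hS _ h2 (by simpa using Finset.card_le_univ I) _ h3

lemma finRotate_cases (k : ℕ) (j : Fin k) :
    ((finRotate k j : ℕ) = j + 1 ∧ (j : ℕ) + 1 < k) ∨ ((j : ℕ) + 1 = k ∧ (finRotate k j : ℕ) = 0) := by
  cases k with
  | zero => exact j.elim0
  | succ m =>
    by_cases h : (j : ℕ) < m
    · left
      have := finRotate_of_lt h
      have hj : (⟨(j : ℕ), by omega⟩ : Fin (m + 1)) = j := rfl
      rw [hj] at this
      rw [this]
      exact ⟨rfl, by simpa using h⟩
    · right
      have hj : j = Fin.last m := Fin.ext (by simp; omega)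
      rw [hj, finRotate_last]
      simp

/-- The cyclic shift maps `x` to the next element of `I`, or the largest to the smallest. -/
lemma cs_spec {I : Finset (Fin n)} {x : Fin n} (hx : x ∈ I) :
    (x < move CS I x ∧ ∀ z ∈ I, x < z → move CS I x ≤ z) ∨
      ((∀ z ∈ I, z ≤ x) ∧ ∀ z ∈ I, move CS I x ≤ z) := by
  obtain ⟨j, hj⟩ := (I.orderIsoOfFin rfl).surjective ⟨x, hx⟩
  have h1 : ((I.orderIsoOfFin rfl j : I) : Fin n) = x := by rw [hj]
  have key : ∀ z ∈ I, ∃ i, ((I.orderIsoOfFin rfl i : I) : Fin n) = z := by
    intro z hz
    obtain ⟨i, hi⟩ := (I.orderIsoOfFin rfl).surjective ⟨z, hz⟩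
    exact ⟨i, by rw [hi]⟩
  have lt_iff : ∀ a b : Fin I.card, ((I.orderIsoOfFin rfl a : I) : Fin n) <
      ((I.orderIsoOfFin rfl b : I) : Fin n) ↔ a < b := fun a b => by
    rw [Subtype.coe_lt_coe, (I.orderIsoOfFin rfl).lt_iff_lt]
  have le_iff : ∀ a b : Fin I.card, ((I.orderIsoOfFin rfl a : I) : Fin n) ≤
      ((I.orderIsoOfFin rfl b : I) : Fin n) ↔ a ≤ b := fun a b => by
    rw [Subtype.coe_le_coe, (I.orderIsoOfFin rfl).le_iff_le]
  rw [← h1, move_apply]
  rcases finRotate_cases I.card j with ⟨h2, h3⟩ | ⟨h2, h3⟩
  · left
    constructor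
    · rw [lt_iff]
      show j < finRotate _ j
      rw [Fin.lt_def, h2]; omega
    · intro z hz
      obtain ⟨i, rfl⟩ := key z hz
      rw [lt_iff, le_iff]
      intro h
      show finRotate _ j ≤ i
      rw [Fin.le_def, h2]
      exact h
  · right
    constructor
    · intro z hz
      obtain ⟨i, rfl⟩ := key z hz
      rw [le_iff, Fin.le_def]
      have := i.2
      omega
    · intro z hz
      obtain ⟨i, rfl⟩ := key z hz
      rw [le_iff]
      show finRotate _ j ≤ i
      rw [Fin.le_def, h3]; omega

lemma cs_deranged : Deranged CS n := by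
  intro k hk _ i h
  rcases finRotate_cases k i with ⟨h2, _⟩ | ⟨h2, h3⟩
  · have : (finRotate k i : ℕ) = i := by exact congrArg Fin.val h
    omega
  · have : (finRotate k i : ℕ) = i := by exact congrArg Fin.val h
    omega

/-- The sets `J ⊆ I` which occur as second sets of incorrect positions. -/
def good (I : Finset (Fin n)) : Finset (Finset (Fin n)) :=
  I.powerset.filter fun J => 2 ≤ J.card ∧ ∀ i ∈ J, move S J (move S I i) ≠ i

/-- The other sets `J ⊆ I` with at least two elements. -/
def bad (I : Finset (Fin n)) : Finset (Finset (Fin n)) :=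
  I.powerset.filter fun J => 2 ≤ J.card ∧ ∃ i ∈ J, move S J (move S I i) = i

lemma good_add_bad (I : Finset (Fin n)) :
    (good S I).card + (bad S I).card = (I.powerset.filter fun J => 2 ≤ J.card).card := by
  have h1 : good S I = (I.powerset.filter fun J => 2 ≤ J.card).filter
      fun J => ∀ i ∈ J, move S J (move S I i) ≠ i := by
    unfold good; rw [Finset.filter_filter]
  have h2 : bad S I = (I.powerset.filter fun J => 2 ≤ J.card).filter
      fun J => ¬ ∀ i ∈ J, move S J (move S I i) ≠ i := by
    unfold bad; rw [Finset.filter_filter]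
    apply Finset.filter_congr
    intro J _
    simp only [ne_eq, not_forall, not_not, exists_prop]
  rw [h1, h2, Finset.card_filter_add_card_filter_not]

lemma move_small {J : Finset (Fin n)} (h : J.card ≤ 1) : move S J = 1 := by
  ext x
  by_cases hx : x ∈ J
  · have := Finset.card_le_one.1 h _ (move_mem S hx) _ hx
    simp [this]
  · simp [move_not_mem S hx]

lemma rebuild (hS : Deranged S n) {I J : Finset (Fin n)} (hp : J ∈ good S I) :
    incorrect ((move S I)⁻¹ * (move S J)⁻¹) (guess S ((move S I)⁻¹ * (move S J)⁻¹) 0) = I ∧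
    incorrect ((move S I)⁻¹ * (move S J)⁻¹) (guess S ((move S I)⁻¹ * (move S J)⁻¹) 1) = J := by
  unfold good at hp
  rw [Finset.mem_filter, Finset.mem_powerset] at hp
  obtain ⟨hsub, h2, hg⟩ := hp
  have h2I : 2 ≤ I.card := h2.trans (Finset.card_le_card hsub)
  have h0 : incorrect ((move S I)⁻¹ * (move S J)⁻¹)
      (guess S ((move S I)⁻¹ * (move S J)⁻¹) 0) = I := by
    ext i
    rw [incorrect, Finset.mem_filter]
    simp only [mem_univ, true_and, guess, Perm.one_apply, Perm.mul_apply, ne_eq]
    rw [eq_comm, Perm.inv_eq_iff_eq, Perm.inv_eq_iff_eq]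
    constructor
    · intro h
      by_contra hc
      apply h
      rw [move_not_mem S hc, move_not_mem S (fun h => hc (hsub h))]
    · intro hi h
      by_cases hJ : i ∈ J
      · exact hg i hJ h.symm
      · have h3 : move S I i ∉ J := by
          intro hm
          have := move_mem S hm
          rw [← h] at this
          exact hJ this
        rw [move_not_mem S h3] at h
        exact move_ne S hS h2I hi h.symm
  refine ⟨h0, ?_⟩
  have h1 : guess S ((move S I)⁻¹ * (move S J)⁻¹) 1 = (move S I)⁻¹ := by
    show guess S _ 0 * (move S (incorrect _ (guess S _ 0)))⁻¹ = _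
    rw [h0]
    simp [guess]
  rw [h1]
  ext i
  rw [incorrect, Finset.mem_filter]
  simp only [mem_univ, true_and, Perm.mul_apply, ne_eq, EmbeddingLike.apply_eq_iff_eq]
  rw [eq_comm, Perm.inv_eq_iff_eq]
  constructor
  · intro h
    by_contra hc
    exact h (move_not_mem S hc).symm
  · intro hi h
    exact move_ne S hS h2 hi h.symm

lemma found_eq (hS : Deranged S n) :
    found S n 2 = ∑ I : Finset (Fin n), (good S I).card := by
  rw [← Finset.card_sigma]
  unfold found
  have hcard : ∀ J : Finset (Fin n), J.card ≤ n := fun J => by simpa using Finset.card_le_univ J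
  refine Finset.card_nbij' (fun π => ⟨incorrect π (guess S π 0), incorrect π (guess S π 1)⟩)
    (fun p => (move S p.1)⁻¹ * (move S p.2)⁻¹) ?_ ?_ ?_ ?_
  · -- a secret found with the third guess gives a good pair
    intro π hπ
    rw [Finset.mem_coe, Finset.mem_filter] at hπ
    obtain ⟨-, h3, h12⟩ := hπ
    have h1 := h12 1 (by norm_num)
    have h0 := h12 0 (by norm_num)
    simp only [coe_sigma, Set.mem_sigma_iff, coe_univ, Set.mem_univ, true_and]
    set I := incorrect π (guess S π 0) with hI
    set J := incorrect π (guess S π 1) with hJ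
    have e1 : guess S π 1 = (move S I)⁻¹ := by
      show guess S π 0 * (move S I)⁻¹ = _
      simp [guess]
    have e2 : π = (move S I)⁻¹ * (move S J)⁻¹ := by
      rw [← h3]
      show guess S π 1 * (move S J)⁻¹ = _
      rw [e1]
    have mI : ∀ i, i ∈ I ↔ π i ≠ i := by
      intro i
      rw [hI, incorrect, Finset.mem_filter]
      simp only [mem_univ, true_and, guess, Perm.one_apply]
      exact ne_comm
    have mJ : ∀ i, i ∈ J ↔ (move S I)⁻¹ i ≠ π i := by
      intro i
      rw [hJ, incorrect, ← e1, Finset.mem_filter]; simp only [mem_univ, true_and]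
    have hsub : J ⊆ I := by
      intro i hi
      by_contra hc
      have h4 : π i = i := by by_contra h; exact hc ((mI i).2 h)
      have h5 := (mJ i).1 hi
      rw [h4] at h5
      apply h5
      rw [Perm.inv_eq_iff_eq, move_not_mem S hc]
    have h2J : 2 ≤ J.card := by
      by_contra h
      have h4 := move_small S (J := J) (by omega)
      rw [h4, inv_one, mul_one, ← e1] at e2
      exact h1 e2.symm
    show J ∈ (good S I : Finset _)
    unfold good
    rw [Finset.mem_filter, Finset.mem_powerset]
    refine ⟨hsub, h2J, fun i hi h => ?_⟩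
    have h5 : π i = i := by
      rw [e2, Perm.mul_apply, Perm.inv_eq_iff_eq, Perm.inv_eq_iff_eq]
      exact h.symm
    exact (mI i).1 (hsub hi) h5
  · -- a good pair gives a secret found with the third guess
    rintro ⟨I, J⟩ hp
    simp only [coe_sigma, Set.mem_sigma_iff, coe_univ, Set.mem_univ, true_and] at hp
    have hp : J ∈ good S I := hp
    obtain ⟨r0, r1⟩ := rebuild S hS hp
    unfold good at hp
    rw [Finset.mem_filter, Finset.mem_powerset] at hp
    obtain ⟨hsub, h2, hg⟩ := hp
    rw [Finset.mem_coe, Finset.mem_filter]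
    show _ ∈ _ ∧ guess S ((move S I)⁻¹ * (move S J)⁻¹) 2 = (move S I)⁻¹ * (move S J)⁻¹ ∧
      ∀ j < 2, guess S ((move S I)⁻¹ * (move S J)⁻¹) j ≠ (move S I)⁻¹ * (move S J)⁻¹
    refine ⟨Finset.mem_univ _, ?_, ?_⟩
    · show guess S _ 0 * (move S (incorrect _ (guess S _ 0)))⁻¹ *
        (move S (incorrect _ (guess S _ 1)))⁻¹ = _
      rw [r0, r1]
      simp [guess]
    · intro j hj h
      have hne : incorrect ((move S I)⁻¹ * (move S J)⁻¹)
          (guess S ((move S I)⁻¹ * (move S J)⁻¹) j) = ∅ := by
        rw [h]
        simp [incorrect]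
      interval_cases j
      · rw [r0] at hne
        have := h2.trans (Finset.card_le_card hsub)
        rw [hne] at this
        simp at this
      · rw [r1] at hne
        rw [hne] at h2
        simp at h2
  · intro π hπ
    rw [Finset.mem_coe, Finset.mem_filter] at hπ
    obtain ⟨-, h3, -⟩ := hπ
    show (move S (incorrect π (guess S π 0)))⁻¹ * (move S (incorrect π (guess S π 1)))⁻¹ = π
    conv_rhs => rw [← h3]
    show _ = guess S π 0 * (move S (incorrect π (guess S π 0)))⁻¹ *
      (move S (incorrect π (guess S π 1)))⁻¹
    simp [guess]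
  · rintro ⟨I, J⟩ hp
    simp only [coe_sigma, Set.mem_sigma_iff, coe_univ, Set.mem_univ, true_and] at hp
    have hp : J ∈ good S I := hp
    obtain ⟨r0, r1⟩ := rebuild S hS hp
    show (⟨incorrect ((move S I)⁻¹ * (move S J)⁻¹) (guess S ((move S I)⁻¹ * (move S J)⁻¹) 0),
      incorrect ((move S I)⁻¹ * (move S J)⁻¹) (guess S ((move S I)⁻¹ * (move S J)⁻¹) 1)⟩ :
      (_ : Finset (Fin n)) × Finset (Fin n)) = ⟨I, J⟩
    rw [r0, r1]

/-- For the cyclic shift only the pairs `{i, move CS I i}` are bad. -/
lemma bad_cs {I J : Finset (Fin n)} (hJ : J ∈ bad CS I) :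
    ∃ i ∈ I, J = {i, move CS I i} := by
  unfold bad at hJ
  rw [Finset.mem_filter, Finset.mem_powerset] at hJ
  obtain ⟨hsub, h2, i, hi, h⟩ := hJ
  have h2I : 2 ≤ I.card := h2.trans (Finset.card_le_card hsub)
  have hne := move_ne CS cs_deranged h2I (hsub hi)
  refine ⟨i, hsub hi, ?_⟩
  set j := move CS I i with hj
  have hjJ : j ∈ J := by
    by_contra hc
    rw [move_not_mem CS hc] at h
    exact hne h
  have hA := cs_spec (hsub hi)
  have hB := cs_spec hjJ
  rw [← hj] at hA
  rw [h] at hB
  ext c
  simp only [mem_insert, mem_singleton]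
  constructor
  · intro hc
    by_contra hcc
    rw [not_or] at hcc
    obtain ⟨hci, hcj⟩ := hcc
    rcases hA with ⟨a1, a2⟩ | ⟨a1, a2⟩ <;> rcases hB with ⟨b1, b2⟩ | ⟨b1, b2⟩
    · exact absurd (a1.trans b1) (lt_irrefl _)
    · have c1 : i < c := lt_of_le_of_ne (b2 c hc) (Ne.symm hci)
      exact hcj (le_antisymm (b1 c hc) (a2 c (hsub hc) c1))
    · have c1 : j < c := lt_of_le_of_ne (a2 c (hsub hc)) (Ne.symm hcj)
      exact hci (le_antisymm (a1 c (hsub hc)) (b2 c hc c1))
    · exact hci (le_antisymm (a1 c (hsub hc)) (b2 c hc))
  · rintro (rfl | rfl)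
    · exact hi
    · exact hjJ

lemma card_bad_cs (I : Finset (Fin n)) : (bad CS I).card ≤ I.card := by
  have : bad CS I ⊆ I.image fun i => {i, move CS I i} := by
    intro J hJ
    obtain ⟨i, hi, rfl⟩ := bad_cs hJ
    exact Finset.mem_image.2 ⟨i, hi, rfl⟩
  exact (Finset.card_le_card this).trans Finset.card_image_le

/-- A pair `{i, move S I i}` is bad. -/
lemma pair_bad (hS : Deranged S n) {I : Finset (Fin n)} (h2 : 2 ≤ I.card) {i : Fin n} (hi : i ∈ I) :
    {i, move S I i} ∈ bad S I := by
  have hne := move_ne S hS h2 hi
  have hm := move_mem S hi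
  unfold bad
  rw [Finset.mem_filter, Finset.mem_powerset]
  have hc : ({i, move S I i} : Finset (Fin n)).card = 2 := Finset.card_pair (Ne.symm hne)
  refine ⟨?_, hc.ge, i, by simp, ?_⟩
  · intro x hx
    simp only [mem_insert, mem_singleton] at hx
    rcases hx with rfl | rfl
    · exact hi
    · exact hm
  · have h1 : move S I i ∈ ({i, move S I i} : Finset (Fin n)) := by simp
    have h3 := move_mem S h1
    have h4 := move_ne S hS hc.ge h1
    simp only [mem_insert, mem_singleton] at h3
    exact h3.resolve_right h4

/-- A triple `{i, j, c}` with `move S I i = j` and `move S I j = i` is bad. -/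
lemma triple_bad (hS : Deranged S n) {I : Finset (Fin n)} {i j c : Fin n} (hi : i ∈ I) (hj : j ∈ I)
    (hc : c ∈ I) (hij : i ≠ j) (hic : i ≠ c) (hjc : j ≠ c) (h1 : move S I i = j)
    (h2 : move S I j = i) : {i, j, c} ∈ bad S I := by
  unfold bad
  rw [Finset.mem_filter, Finset.mem_powerset]
  have h3 : ({i, j, c} : Finset (Fin n)).card = 3 := Finset.card_eq_three.2
    ⟨i, j, c, hij, hic, hjc, rfl⟩
  refine ⟨?_, by omega, ?_⟩
  · intro x hx
    simp only [mem_insert, mem_singleton] at hx
    rcases hx with rfl | rfl | rfl <;> assumption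
  · set T : Finset (Fin n) := {i, j, c} with hT
    have iT : i ∈ T := by simp [hT]
    have jT : j ∈ T := by simp [hT]
    by_cases h : move S T i = j
    · exact ⟨j, jT, by rw [h2, h]⟩
    · refine ⟨i, iT, ?_⟩
      rw [h1]
      have a1 := move_mem S iT
      have a2 := move_ne S hS (by omega) iT
      have b1 := move_mem S jT
      have b2 := move_ne S hS (by omega) jT
      have a3 : move S T i = c := by
        rw [hT] at a1 ⊢
        simp only [mem_insert, mem_singleton] at a1
        rw [← hT] at a1 ⊢
        tauto
      have b3 : move S T j ≠ c := by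
        intro hb
        exact hij ((move S T).injective (a3.trans hb.symm))
      rw [hT] at b1
      simp only [mem_insert, mem_singleton] at b1
      rw [← hT] at b1
      tauto

lemma card_le_bad (hS : Deranged S n) {I : Finset (Fin n)} (h3 : 3 ≤ I.card) :
    I.card ≤ (bad S I).card := by
  classical
  have hex : ∀ i j : Fin n, ∃ c, c ∈ I ∧ i ≠ c ∧ j ≠ c := by
    intro i j
    have : 0 < (I \ {i, j}).card := by
      have h1 := Finset.le_card_sdiff {i, j} I
      have h2 : ({i, j} : Finset (Fin n)).card ≤ 2 := Finset.card_le_two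
      omega
    obtain ⟨c, hc⟩ := Finset.card_pos.1 this
    simp only [mem_sdiff, mem_insert, mem_singleton, not_or] at hc
    exact ⟨c, hc.1, fun h => hc.2.1 h.symm, fun h => hc.2.2 h.symm⟩
  choose f hf using hex
  set m := move S I with hm
  refine Finset.card_le_card_of_injOn
    (fun i => if m (m i) = i ∧ m i < i then {i, m i, f i (m i)} else {i, m i}) ?_ ?_
  · intro i hi
    have hi : i ∈ I := hi
    have hne : m i ≠ i := move_ne S hS (by omega) hi
    by_cases h : m (m i) = i ∧ m i < i
    · simp only [h, and_self, if_true]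
      obtain ⟨c1, c2, c3⟩ := hf i (m i)
      exact triple_bad S hS hi (move_mem S hi) c1 hne.symm c2 c3 rfl h.1
    · simp only [h, if_false]
      exact pair_bad S hS (by omega) hi
  · intro i hi i' hi' heq
    have hi : i ∈ I := hi
    have hi' : i' ∈ I := hi'
    have hne : m i ≠ i := move_ne S hS (by omega) hi
    have hne' : m i' ≠ i' := move_ne S hS (by omega) hi'
    obtain ⟨c1, c2, c3⟩ := hf i (m i)
    obtain ⟨d1, d2, d3⟩ := hf i' (m i')
    have hc3 : ({i, m i, f i (m i)} : Finset (Fin n)).card = 3 := Finset.card_eq_three.2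
      ⟨i, m i, _, hne.symm, c2, c3, rfl⟩
    have hd3 : ({i', m i', f i' (m i')} : Finset (Fin n)).card = 3 := Finset.card_eq_three.2
      ⟨i', m i', _, hne'.symm, d2, d3, rfl⟩
    have hc2 : ({i, m i} : Finset (Fin n)).card = 2 := Finset.card_pair hne.symm
    have hd2 : ({i', m i'} : Finset (Fin n)).card = 2 := Finset.card_pair hne'.symm
    by_contra hcon
    by_cases h : m (m i) = i ∧ m i < i <;> by_cases h' : m (m i') = i' ∧ m i' < i'
    · simp only [h, h', and_self, if_true] at heq
      have e1 : i ∈ ({i', m i', f i' (m i')} : Finset (Fin n)) := by rw [← heq]; simp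
      have e2 : m i ∈ ({i', m i', f i' (m i')} : Finset (Fin n)) := by rw [← heq]; simp
      simp only [mem_insert, mem_singleton] at e1 e2
      rcases e1 with e1 | e1 | e1
      · exact hcon e1
      · have : m i = i' := by rw [e1]; exact h'.1
        have l1 := h.2
        have l2 := h'.2
        rw [this] at l1
        rw [← e1] at l2
        exact absurd (l1.trans l2) (lt_irrefl _)
      · rcases e2 with e2 | e2 | e2
        · have : i = m i' := by rw [← e2]; exact h.1.symm
          rw [this] at e1
          exact d3 e1
        · exact hcon (m.injective e2)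
        · exact hne (e2.trans e1.symm)
    · simp only [h, h', and_self, if_true, if_false] at heq
      rw [heq] at hc3
      omega
    · simp only [h, h', and_self, if_true, if_false] at heq
      rw [heq] at hc2
      omega
    · simp only [h, h', if_false] at heq
      have e1 : i ∈ ({i', m i'} : Finset (Fin n)) := by rw [← heq]; simp
      have e2 : i' ∈ ({i, m i} : Finset (Fin n)) := by rw [heq]; simp
      simp only [mem_insert, mem_singleton] at e1 e2
      have e1 := e1.resolve_left hcon
      have e2 := e2.resolve_left (Ne.symm hcon)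
      rcases lt_trichotomy i i' with hl | hl | hl
      · exact h' ⟨by rw [← e1]; exact e2.symm, by rw [← e1]; exact hl⟩
      · exact hcon hl
      · exact h ⟨by rw [← e2]; exact e1.symm, by rw [← e2]; exact hl⟩

lemma bad_le (hS : Deranged S n) (I : Finset (Fin n)) : (bad CS I).card ≤ (bad S I).card := by
  by_cases h3 : 3 ≤ I.card
  · exact (card_bad_cs I).trans (card_le_bad S hS h3)
  · by_cases h2 : I.card = 2
    · have h1 : bad CS I ⊆ {I} := by
        intro J hJ
        unfold bad at hJ
        rw [Finset.mem_filter, Finset.mem_powerset] at hJ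
        rw [Finset.mem_singleton]
        exact Finset.eq_of_subset_of_card_le hJ.1 (by omega)
      have hpos : 0 < (bad S I).card := by
        obtain ⟨i, hi⟩ := Finset.card_pos.1 (show 0 < I.card by omega)
        exact Finset.card_pos.2 ⟨_, pair_bad S hS h2.ge hi⟩
      have := Finset.card_le_card h1
      rw [Finset.card_singleton] at this
      omega
    · have : bad CS I = ∅ := by
        apply Finset.eq_empty_of_forall_notMem
        intro J hJ
        unfold bad at hJ
        rw [Finset.mem_filter, Finset.mem_powerset] at hJ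
        have := Finset.card_le_card hJ.1
        omega
      rw [this]
      simp

end aux

/-- For every `n` and every deranged strategy `S` of length `n`, the number of secret permutations
of `Fin n` found in exactly three guesses with `S` is at most the number for the cyclic shift. -/
theorem result (n : ℕ) (S : Strategy) (hS : Deranged S n) : found S n 2 ≤ found CS n 2 := by
  rw [found_eq S hS, found_eq CS cs_deranged]
  apply Finset.sum_le_sum
  intro I _
  have h1 := good_add_bad S I
  have h2 := good_add_bad CS I
  have h3 := bad_le S hS I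
  omega
end Pool.Agent.Results.MP_433145_co.CubicMaximal
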